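import Pool.Agent.Helper784QW.Asm

/-!
# A crossed product of the hyperfinite II₁ factor by a residually finite group which is not QWEP

`R = L(N)` for a countable locally finite ICC group `N`, on which a residually finite group `G` (a stabiliser in `GL₆` of the group
ring `𝔽₁₂₇[SL(2,ℤ)]`) acts; `R ⋊ G = L(N ⋊ G)`, and the group `N ⋊ G` contains a group which is not hyperlinear: a group `𝒢` with
property (T) and a subgroup `K` with property (T), such that the elements `v` with `v K v⁻¹ ≤ K` generate `𝒢`, and an element commuting with
`v K v⁻¹`, but not with `K`.
-/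

set_option autoImplicit false

namespace Pool.Agent.Results.MP_47effe_an.NotQWEP

open Pool.Agent.Helper784QW

/-- There are a countable, residually finite, hyperlinear group `G` and a trace-preserving action of `G` on the hyperfinite II₁
factor `M` such that the von Neumann algebra crossed product `M ⋊ G` is not QWEP. -/
theorem result : ∃ (H : Type) (_ : NormedAddCommGroup H) (_ : InnerProductSpace ℂ H)
    (_ : CompleteSpace H) (M : VonNeumannAlgebra H) (ξ : H) (G : Type) (_ : Group G)
    (α : G → (H →L[ℂ] H) → (H →L[ℂ] H)),
    TopologicalSpace.SeparableSpace H ∧ IsHyperfiniteII1 M ξ ∧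
    Countable G ∧ ResiduallyFinite G ∧ Hyperlinear G ∧ IsAction G M ξ α ∧
    ¬ QWEP (crossedProduct M α) := main

end Pool.Agent.Results.MP_47effe_an.NotQWEP
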